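import Pool.Agent.K7.H21.Inv.Cube
import Pool.Agent.K7.H21.Aut6.Core

set_option autoImplicit false

/-!
# Counting fixed vectors, and the parity lemma for `m + 1` cubes
-/

namespace Pool.Agent.K7.H21.Inv

open Function Finset Pool.Agent.H430R2.PermCubes Pool.Agent.K7.H21.Aut6

section count

variable {J : Type} [Fintype J] [LinearOrder J] {n : ℕ} {π : J → J} {p : J → Equiv.Perm (Fin n)}

/-- the vectors fixed by the involution -/
def fixEquiv (hπ : ∀ i, π (π i) = i) (hp : ∀ i s, p (π i) (p i s) = s) :
    {y : J → Fin n // move π p y = y} ≃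
      ({i // i < π i} → Fin n) × (∀ i : {i // π i = i}, {s // p i.1 s = s}) where
  toFun y := (fun i => y.1 i.1, fun i => ⟨y.1 i.1, by
    have h := congrFun y.2 i.1
    simp only [move] at h
    rwa [i.2] at h⟩)
  invFun uv := ⟨fun i => if h1 : π i = i then (uv.2 ⟨i, h1⟩).1 else
      if h2 : i < π i then uv.1 ⟨i, h2⟩ else p (π i) (uv.1 ⟨π i, by
        rw [hπ]; exact lt_of_le_of_ne (not_lt.1 h2) h1⟩), by
    funext i
    simp only [move]
    by_cases h1 : π i = i
    · have h1' : π (π i) = π i := by rw [hπ, h1]
      rw [dif_pos h1', dif_pos h1]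
      have e : ∀ (j : J) (hj : π j = j), j = i → (uv.2 ⟨j, hj⟩).1 = (uv.2 ⟨i, h1⟩).1 := by
        rintro j hj rfl
        rfl
      rw [e (π i) h1' h1]
      have e2 : ∀ (j : J) (s : Fin n), j = i → p j s = p i s := by
        rintro j s rfl
        rfl
      rw [e2 (π i) _ h1]
      exact (uv.2 ⟨i, h1⟩).2
    · have h1' : ¬ π (π i) = π i := by rw [hπ]; exact fun h => h1 h.symm
      rw [dif_neg h1', dif_neg h1]
      by_cases h2 : i < π i
      · have h2' : ¬ π i < π (π i) := by rw [hπ]; exact not_lt.2 h2.le
        rw [dif_neg h2', dif_pos h2]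
        have h4 : π (π i) < π (π (π i)) := by rw [hπ]; exact h2
        have h3 : p (π i) (p (π (π i)) (uv.1 ⟨π (π i), h4⟩)) = uv.1 ⟨i, h2⟩ := by
          have e : (⟨π (π i), h4⟩ : {i // i < π i}) = ⟨i, h2⟩ := Subtype.ext (hπ i)
          rw [e, hπ]
          exact hp i _
        exact h3
      · have h2' : π i < π (π i) := by rw [hπ]; exact lt_of_le_of_ne (not_lt.1 h2) h1
        rw [dif_pos h2', dif_neg h2]⟩
  left_inv y := by
    apply Subtype.ext
    funext i
    show (if h1 : π i = i then _ else _) = _
    by_cases h1 : π i = i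
    · rw [dif_pos h1]
    · rw [dif_neg h1]
      by_cases h2 : i < π i
      · rw [dif_pos h2]
      · rw [dif_neg h2]
        exact congrFun y.2 i
  right_inv uv := by
    refine Prod.ext ?_ ?_
    · funext i
      have h1 : ¬ π i.1 = i.1 := fun h => by
        have := i.2
        rw [h] at this
        exact lt_irrefl _ this
      show (if h1 : π i.1 = i.1 then _ else _) = _
      rw [dif_neg h1, dif_pos i.2]
    · funext i
      apply Subtype.ext
      show (if h1 : π i.1 = i.1 then _ else _) = _
      rw [dif_pos i.2]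

theorem card_fix (hπ : ∀ i, π (π i) = i) (hp : ∀ i s, p (π i) (p i s) = s) :
    Fintype.card {y : J → Fin n // move π p y = y} =
      n ^ (univ.filter fun i => i < π i).card *
        ∏ i ∈ univ.filter (fun i => π i = i), (fixes (p i)).card := by
  rw [Fintype.card_congr (fixEquiv hπ hp), Fintype.card_prod]
  congr 1
  · rw [Fintype.card_fun, Fintype.card_fin, Fintype.card_subtype]
  · rw [Fintype.card_pi, Finset.prod_subtype (univ.filter fun i => π i = i)
      (p := fun i => π i = i) (by simp)]
    refine Finset.prod_congr rfl (fun i _ => ?_)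
    rw [Fintype.card_subtype]
    rfl

/-- the swapped pairs and the fixed elements -/
theorem card_pairs (hπ : ∀ i, π (π i) = i) :
    2 * (univ.filter fun i => i < π i).card + (univ.filter fun i => π i = i).card =
      Fintype.card J := by
  have h1 : (univ.filter fun i => π i < i).card = (univ.filter fun i => i < π i).card := by
    refine Finset.card_bij (fun i _ => π i) ?_ ?_ ?_
    · intro i hi
      simp only [Finset.mem_filter, Finset.mem_univ, true_and] at hi ⊢
      rwa [hπ]
    · intro i _ j _ h
      have := congrArg π h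
      rwa [hπ, hπ] at this
    · intro i hi
      simp only [Finset.mem_filter, Finset.mem_univ, true_and] at hi
      refine ⟨π i, ?_, hπ i⟩
      simp only [Finset.mem_filter, Finset.mem_univ, true_and]
      rwa [hπ]
  have h2 : Fintype.card J = (univ.filter fun i => i < π i).card +
      (univ.filter fun i => ¬ i < π i).card := by
    rw [Finset.card_filter_add_card_filter_not, Finset.card_univ]
  have h3 : (univ.filter fun i => ¬ i < π i) =
      (univ.filter fun i => π i < i) ∪ (univ.filter fun i => π i = i) := by
    ext i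
    simp only [Finset.mem_filter, Finset.mem_univ, true_and, Finset.mem_union, not_lt]
    exact le_iff_lt_or_eq
  have h4 : Disjoint (univ.filter fun i => π i < i) (univ.filter fun i => π i = i) := by
    rw [Finset.disjoint_left]
    intro i h5 h6
    simp only [Finset.mem_filter, Finset.mem_univ, true_and] at h5 h6
    rw [h6] at h5
    exact lt_irrefl _ h5
  rw [h3, Finset.card_union_of_disjoint h4, h1] at h2
  omega

end count

/-! ### the parity lemma for `m + 1` cubes -/

variable {m n : ℕ} {C : Fin (m + 1) → (Fin m → Fin n) → Fin n}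

theorem cnt_set' (h : IsVariationalSet m n (m + 1) C) {k : ℕ} (H : Fin (m + 1) → Finset (Fin n))
    (hH : ∀ i, (H i).card = k) (hn : n = 2 * k) (S : Finset (Fin (m + 1))) :
    (S.card % 2 = 0 → Pool.Agent.TH7.Cyc.cnt C H (fun i => decide (i ∉ S)) =
      Pool.Agent.TH7.Cyc.cnt C H (fun _ => true)) ∧
    (S.card % 2 = 1 → Pool.Agent.TH7.Cyc.cnt C H (fun i => decide (i ∉ S)) +
      Pool.Agent.TH7.Cyc.cnt C H (fun _ => true) = k ^ m) := by
  induction S using Finset.induction_on with
  | empty => simp
  | insert i S hi ih =>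
    obtain ⟨h1, h2⟩ := ih
    have e1 : update (fun j => decide (j ∉ S)) i true = fun j => decide (j ∉ S) := by
      funext j
      by_cases hj : j = i
      · subst hj; simp [hi]
      · rw [update_of_ne hj]
    have e2 : update (fun j => decide (j ∉ S)) i false = fun j => decide (j ∉ insert i S) := by
      funext j
      by_cases hj : j = i
      · subst hj; simp
      · rw [update_of_ne hj]; simp [hj]
    have hfl := Pool.Agent.TH7.Cyc.cnt_flip h H hH hn (fun j => decide (j ∉ S)) i
    rw [e1, e2] at hfl
    rw [Finset.card_insert_of_notMem hi]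
    constructor
    · intro h3
      have := h2 (by omega)
      omega
    · intro h3
      have := h1 (by omega)
      omega

variable {π : Fin m → Fin m} {p : Fin m → Equiv.Perm (Fin n)} {ρ : Fin (m + 1) → Fin (m + 1)}
  {q : Fin (m + 1) → Equiv.Perm (Fin n)}

/-- the symbols of the image of a cell -/
theorem symbols_move {k : ℕ} {C : Fin k → (Fin m → Fin n) → Fin n} {ρ : Fin k → Fin k}
    {q : Fin k → Equiv.Perm (Fin n)} (hρ : ∀ o, ρ (ρ o) = o)
    (h : ∀ o x, C (ρ o) (move π p x) = q o (C o x)) (x : Fin m → Fin n) :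
    (fun o => C o (move π p x)) = move ρ q (fun o => C o x) := by
  funext o
  have := h (ρ o) x
  rw [hρ] at this
  exact this

/-- if no symbol of a fixed cube is fixed then the number of the fixed cubes is even -/
theorem even_fixed_cubes (hn : n % 4 = 2) (hC : IsVariationalSet m n (m + 1) C)
    (hπ : ∀ i, π (π i) = i) (hp : ∀ i s, p (π i) (p i s) = s)
    (hρ : ∀ o, ρ (ρ o) = o) (hq : ∀ o s, q (ρ o) (q o s) = s)
    (h : ∀ o x, C (ρ o) (move π p x) = q o (C o x))
    (hfree : ∀ o, ρ o = o → ∀ s, q o s ≠ s) :
    (univ.filter fun o => ρ o = o).card % 2 = 0 := by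
  classical
  by_contra hcon
  obtain ⟨k, hk⟩ : ∃ k, n = 2 * k := ⟨n / 2, by omega⟩
  have hk2 : k % 2 = 1 := by omega
  obtain ⟨B, hB⟩ := exists_base (n := n) (by omega)
  have hB' : B.card = k := by omega
  set H := halves ρ q B with hHdef
  have hH : ∀ i, (H i).card = k := fun i => card_halves hk hB' hq hfree i
  set S : Finset (Fin (m + 1)) := univ.filter fun i => ρ i = i with hS
  have hmS : ∀ i, i ∈ S ↔ ρ i = i := fun i => by simp [hS]
  have h1 := (cnt_set' hC H hH hk S).2 (by omega)
  have hsym := symbols_move (C := C) hρ h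
  have hfix : ∀ (x : Fin m → Fin n) (o : Fin (m + 1)), ρ o = o →
      (C o (move π p x) ∈ H o ↔ C o x ∉ H o) := by
    intro x o ho
    have h2 : C o (move π p x) = q o (C o x) := by
      have := congrFun (hsym x) o
      simp only [move] at this
      rw [ho] at this
      exact this
    rw [h2, hHdef]
    exact halves_flip hq hfree ho _
  have hswap : ∀ (x : Fin m → Fin n) (o : Fin (m + 1)), ρ o ≠ o →
      (C o (move π p x) ∈ H o ↔ C (ρ o) x ∈ H (ρ o)) := by
    intro x o ho
    have h2 : C o (move π p x) = q (ρ o) (C (ρ o) x) := congrFun (hsym x) o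
    have ho' : ρ (ρ o) ≠ ρ o := by rw [hρ]; exact fun h' => ho h'.symm
    have h3 := halves_keep (B := B) hρ hq ho' (C (ρ o) x)
    rw [hρ] at h3
    rw [h2]
    exact h3
  have h4 : Pool.Agent.TH7.Cyc.cnt C H (fun _ => true) =
      Pool.Agent.TH7.Cyc.cnt C H (fun i => decide (i ∉ S)) := by
    refine Finset.card_bij (fun x _ => move π p x) ?_ ?_ ?_
    · intro x hx
      rw [Finset.mem_filter] at hx ⊢
      have hx1 : ∀ o, C o x ∈ H o := fun o => by simpa using hx.2 o
      refine ⟨Finset.mem_univ _, fun o => ?_⟩
      by_cases ho : ρ o = o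
      · have h5 : ¬ C o (move π p x) ∈ H o := by
          rw [hfix x o ho]; exact not_not.2 (hx1 o)
        simp [h5, hmS, ho]
      · have h5 : C o (move π p x) ∈ H o := (hswap x o ho).2 (hx1 (ρ o))
        simp [h5, hmS, ho]
    · intro x _ y _ hxy
      have := congrArg (move π p) hxy
      rwa [move_move hπ hp, move_move hπ hp] at this
    · intro y hy
      rw [Finset.mem_filter] at hy
      refine ⟨move π p y, ?_, move_move hπ hp y⟩
      rw [Finset.mem_filter]
      refine ⟨Finset.mem_univ _, fun o => ?_⟩
      by_cases ho : ρ o = o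
      · have h5 : ¬ C o y ∈ H o := by
          have := hy.2 o
          have hiS : ¬ o ∉ S := by rw [not_not, hmS]; exact ho
          simpa [hiS] using this
        have h6 := (hfix y o ho).2 h5
        simp [h6]
      · have ho' : ρ (ρ o) ≠ ρ o := by rw [hρ]; exact fun h' => ho h'.symm
        have h5 : C (ρ o) y ∈ H (ρ o) := by
          have := hy.2 (ρ o)
          have hiS : ρ o ∉ S := by rw [hmS]; exact ho'
          simpa [hiS] using this
        have h6 := (hswap y o ho).2 h5
        simp [h6]
  have h5 : k ^ m % 2 = 1 := by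
    rw [Nat.pow_mod, hk2]; simp
  omega

end Pool.Agent.K7.H21.Inv
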