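import Pool.Agent.K7.H21.Inv.Sym

set_option autoImplicit false

/-!
# Involutions that permute the coordinates: one cube
-/

namespace Pool.Agent.K7.H21.Inv

open Function Finset Pool.Agent.H430R2.PermCubes Pool.Agent.K7.H21.Aut6

/-- the coordinates fixed by `π` in which `p` fixes no symbol -/
def fr {m n : ℕ} (π : Fin m → Fin m) (p : Fin m → Equiv.Perm (Fin n)) : Finset (Fin m) :=
  univ.filter fun i => π i = i ∧ ∀ s, p i s ≠ s

variable {m n : ℕ} {f : (Fin m → Fin n) → Fin n} {π : Fin m → Fin m}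
  {p : Fin m → Equiv.Perm (Fin n)} {q : Equiv.Perm (Fin n)}

theorem mem_fr {i : Fin m} : i ∈ fr π p ↔ π i = i ∧ ∀ s, p i s ≠ s := by
  rw [fr, Finset.mem_filter]
  exact ⟨fun h => h.2, fun h => ⟨Finset.mem_univ _, h⟩⟩

theorem ext_update' (S : Finset (Fin m)) (inst : DecidableEq {i // i ∈ S}) (z : Fin m → Fin n)
    (y : {i // i ∈ S} → Fin n) (i : {i // i ∈ S}) (t : Fin n) :
    Aut6.ext S z (@update _ _ inst y i t) = update (Aut6.ext S z y) i.1 t := by
  funext j
  by_cases hj : j = i.1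
  · subst hj
    simp [Aut6.ext]
  · rw [update_of_ne hj]
    by_cases h : j ∈ S
    · have : (⟨j, h⟩ : {i // i ∈ S}) ≠ i := fun h' => hj (by rw [← h'])
      simp [Aut6.ext, h, update_of_ne this]
    · simp [Aut6.ext, h]

theorem ext_move (S : Finset (Fin m)) (z : Fin m → Fin n)
    (hz : ∀ i, i ∉ S → π i = i ∧ p i (z i) = z i) (hS : ∀ i, i ∈ S → π i ∈ S)
    (y : {i // i ∈ S} → Fin n) :
    Aut6.ext S z (move (fun i : {i // i ∈ S} => (⟨π i.1, hS i.1 i.2⟩ : {i // i ∈ S}))
      (fun i => p i.1) y) = move π p (Aut6.ext S z y) := by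
  funext j
  by_cases h : j ∈ S
  · simp [Aut6.ext, move, h, hS j h]
  · obtain ⟨h1, h2⟩ := hz j h
    have h3 : π j ∉ S := by rw [h1]; exact h
    simp [Aut6.ext, move, h, h1, h2]

theorem exists_z (hn : n % 4 = 2) (T : Finset (Fin m))
    (hT : ∀ i, i ∉ T → π i = i ∧ ∃ s, p i s = s) :
    ∃ z : Fin m → Fin n, ∀ i, i ∉ T → π i = i ∧ p i (z i) = z i := by
  have hz : ∀ i, ∃ z : Fin n, i ∉ T → π i = i ∧ p i z = z := by
    intro i
    by_cases hi : i ∈ T
    · exact ⟨⟨0, by omega⟩, fun h' => absurd hi h'⟩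
    · obtain ⟨h1, s, hs⟩ := hT i hi
      exact ⟨s, fun _ => ⟨h1, hs⟩⟩
  choose z hz using hz
  exact ⟨z, hz⟩

/-- the coordinates that are moved or without fixed symbols -/
def act (π : Fin m → Fin m) (p : Fin m → Equiv.Perm (Fin n)) : Finset (Fin m) :=
  univ.filter fun i => ¬ (π i = i ∧ ∃ s, p i s = s)

theorem mem_act {i : Fin m} : i ∈ act π p ↔ ¬ (π i = i ∧ ∃ s, p i s = s) := by
  rw [act, Finset.mem_filter]
  exact ⟨fun h => h.2, fun h => ⟨Finset.mem_univ _, h⟩⟩

theorem fr_sub_act : fr π p ⊆ act π p := by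
  intro i hi
  rw [mem_fr] at hi
  rw [mem_act]
  rintro ⟨-, s, hs⟩
  exact hi.2 s hs

theorem act_stable (hπ : ∀ i, π (π i) = i) (i : Fin m) (hi : i ∈ act π p) : π i ∈ act π p := by
  by_contra h
  rw [mem_act, not_not] at h
  obtain ⟨h1, h2⟩ := h
  rw [hπ] at h1
  rw [mem_act] at hi
  exact hi ⟨h1.symm, by rwa [← h1] at h2⟩

theorem card_fixed_sub (T : Finset (Fin m)) (hT : ∀ i, i ∈ T → π i ∈ T) (U : Finset (Fin m))
    (hU : ∀ i, i ∈ U ↔ i ∈ T ∧ π i = i) :
    (univ.filter fun i : {i // i ∈ T} =>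
      (⟨π i.1, hT i.1 i.2⟩ : {i // i ∈ T}) = i).card = U.card := by
  refine Finset.card_bij (fun i _ => i.1) ?_ ?_ ?_
  · intro i hi
    rw [Finset.mem_filter] at hi
    rw [hU]
    exact ⟨i.2, congrArg Subtype.val hi.2⟩
  · intro i _ j _ h
    exact Subtype.ext h
  · intro i hi
    rw [hU] at hi
    refine ⟨⟨i, hi.1⟩, ?_, rfl⟩
    rw [Finset.mem_filter]
    exact ⟨Finset.mem_univ _, Subtype.ext hi.2⟩

/-- an even number of fixed coordinates without fixed symbols: some symbol is fixed -/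
theorem symbol_fixed (hf : ∀ (i : Fin m) (x : Fin m → Fin n),
      Bijective fun t => f (update x i t)) (hn : n % 4 = 2) (hπ : ∀ i, π (π i) = i)
    (hp : ∀ i s, p (π i) (p i s) = s) (hq2 : ∀ s, q (q s) = s)
    (h : ∀ x, f (move π p x) = q (f x)) (he : (fr π p).card % 2 = 0) :
    ∃ s, q s = s := by
  classical
  by_contra hcon
  push Not at hcon
  obtain ⟨z, hz⟩ := exists_z (π := π) (p := p) hn (act π p)
    (fun i hi => by rw [mem_act, not_not] at hi; exact hi)
  have hst := act_stable (p := p) hπ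
  refine no_sym (I := {i // i ∈ act π p}) (f := fun y => f (Aut6.ext (act π p) z y)) ?_ hn
    (fun i => ⟨π i.1, hst i.1 i.2⟩) (fun i => Subtype.ext (hπ i.1)) (fun i => p i.1)
    (fun i s => hp i.1 s) ?_ q hq2 hcon ?_ ?_
  · intro i y
    simp only [ext_update']
    exact hf _ _
  · intro i hi s hs
    have h1 : π i.1 = i.1 := congrArg Subtype.val hi
    have h2 := mem_act.1 i.2
    exact h2 ⟨h1, s, hs⟩
  · intro y
    show f (Aut6.ext (act π p) z (move _ _ y)) = _
    rw [ext_move (act π p) z hz hst, h]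
  · have h5 := card_fixed_sub (act π p) hst (fr π p) (by
      intro i
      rw [mem_fr, mem_act]
      constructor
      · rintro ⟨h1, h2⟩
        exact ⟨fun ⟨_, s, hs⟩ => h2 s hs, h1⟩
      · rintro ⟨h1, h2⟩
        exact ⟨h2, fun s hs => h1 ⟨h2, s, hs⟩⟩)
    rw [← h5] at he
    convert he

/-- an odd number of fixed coordinates without fixed symbols: no symbol is fixed -/
theorem symbol_free (hf : ∀ (i : Fin m) (x : Fin m → Fin n),
      Bijective fun t => f (update x i t)) (hn : n % 4 = 2) (hπ : ∀ i, π (π i) = i)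
    (hp : ∀ i s, p (π i) (p i s) = s)
    (h : ∀ x, f (move π p x) = q (f x)) (ho : (fr π p).card % 2 = 1) (s : Fin n) :
    q s ≠ s := by
  classical
  intro hs
  obtain ⟨i₀, hi₀⟩ : (fr π p).Nonempty := by rw [← Finset.card_pos]; omega
  obtain ⟨hπ₀, hf₀⟩ := mem_fr.1 hi₀
  obtain ⟨z, hz⟩ := exists_z (π := π) (p := p) hn (act π p)
    (fun i hi => by rw [mem_act, not_not] at hi; exact hi)
  have hst := act_stable (p := p) hπ
  set S := (act π p).erase i₀ with hS
  have hstS : ∀ i, i ∈ S → π i ∈ S := by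
    intro i hi
    rw [hS, Finset.mem_erase] at hi ⊢
    refine ⟨fun h' => hi.1 ?_, hst i hi.2⟩
    rw [← hπ i, h', hπ₀]
  have hi₀S : ∀ i : {i // i ∈ S}, i.1 ≠ i₀ := fun i => (Finset.mem_erase.1 i.2).1
  -- the hypercube of the coordinate `i₀` of the cells with symbol `s`
  have hex : ∀ y : {i // i ∈ S} → Fin n, ∃ t, f (update (Aut6.ext S z y) i₀ t) = s :=
    fun y => (hf i₀ _).2 s
  choose g hg using hex
  have hgu : ∀ y t, f (update (Aut6.ext S z y) i₀ t) = s → g y = t := fun y t ht =>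
    (hf i₀ (Aut6.ext S z y)).1 ((hg y).trans ht.symm)
  have hp₀ : ∀ t, p i₀ (p i₀ t) = t := fun t => by
    have := hp i₀ t
    rwa [hπ₀] at this
  refine no_sym (I := {i // i ∈ S}) (f := g) ?_ hn (fun i => ⟨π i.1, hstS i.1 i.2⟩)
    (fun i => Subtype.ext (hπ i.1)) (fun i => p i.1) (fun i s => hp i.1 s) ?_ (p i₀) hp₀ hf₀ ?_ ?_
  · intro i y
    rw [← Finite.injective_iff_bijective]
    intro t t' htt
    have htt' : g (update y i t) = g (update y i t') := htt
    have h1 := hg (update y i t)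
    have h2 := hg (update y i t')
    rw [← htt', ext_update', update_comm (hi₀S i)] at h2
    rw [ext_update', update_comm (hi₀S i)] at h1
    exact (hf i.1 _).1 (h1.trans h2.symm)
  · intro i hi t ht
    have h1 : π i.1 = i.1 := congrArg Subtype.val hi
    have h2 := mem_act.1 (Finset.mem_of_mem_erase i.2)
    exact h2 ⟨h1, t, ht⟩
  · intro y
    apply hgu
    have h1 : update (Aut6.ext S z (move (fun i : {i // i ∈ S} => (⟨π i.1, hstS i.1 i.2⟩ :
        {i // i ∈ S})) (fun i => p i.1) y)) i₀ (p i₀ (g y)) =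
        move π p (update (Aut6.ext S z y) i₀ (g y)) := by
      funext j
      by_cases hj : j = i₀
      · subst hj
        simp [move, hπ₀]
      · rw [update_of_ne hj]
        have hπj : π j ≠ i₀ := fun h' => hj (by rw [← hπ j, h', hπ₀])
        by_cases hjS : j ∈ S
        · simp [Aut6.ext, move, hjS, hstS j hjS, hπj]
        · have hja : j ∉ act π p := fun h' => hjS (Finset.mem_erase.2 ⟨hj, h'⟩)
          obtain ⟨h3, h4⟩ := hz j hja
          simp [Aut6.ext, move, hjS, h3, h4, hj]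
    rw [h1, h, hg, hs]
  · have h5 := card_fixed_sub S hstS ((fr π p).erase i₀) (by
      intro i
      rw [Finset.mem_erase, hS, Finset.mem_erase, mem_fr, mem_act]
      constructor
      · rintro ⟨h0, h1, h2⟩
        exact ⟨⟨h0, fun ⟨_, s, hs⟩ => h2 s hs⟩, h1⟩
      · rintro ⟨⟨h0, h1⟩, h2⟩
        exact ⟨h0, h2, fun s hs => h1 ⟨h2, s, hs⟩⟩)
    have h6 : ((fr π p).erase i₀).card % 2 = 0 := by
      rw [Finset.card_erase_of_mem hi₀]
      omega
    rw [← h5] at h6
    convert h6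

end Pool.Agent.K7.H21.Inv
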