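import Pool.Agent.K7.H21.Inv.Count
import Pool.Agent.K7.H21.Aut6.Group

set_option autoImplicit false

/-!
# Involutions of variational sets of `m + 1` cubes that permute coordinates and cubes
-/

namespace Pool.Agent.K7.H21.Inv

open Function Finset Pool.Agent.H430R2.PermCubes Pool.Agent.K7.H21.Aut6

/-! ### arithmetic -/

theorem not_sq {n : ℕ} (hn : n % 4 = 2) (g : ℕ) : g * g ≠ n := by
  intro h
  have h1 : g % 4 = 0 ∨ g % 4 = 1 ∨ g % 4 = 2 ∨ g % 4 = 3 := by omega
  have h2 : (g * g) % 4 = 2 := by rw [h, hn]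
  rw [Nat.mul_mod] at h2
  rcases h1 with h1 | h1 | h1 | h1 <;> rw [h1] at h2 <;> norm_num at h2

theorem exps_aux {n g a d E : ℕ} (hn : n % 4 = 2) (hg : 0 < g) (hd : d ≠ 0)
    (h : n ^ a * g ^ (E + 2 * d) = n ^ (a + d) * g ^ E) : False := by
  have hn0 : 0 < n := by omega
  rw [pow_add, pow_add] at h
  have h1 : (n ^ a * g ^ E) * g ^ (2 * d) = (n ^ a * g ^ E) * n ^ d := by
    rw [← mul_assoc] at h
    rw [h]
    ring
  have h2 : g ^ (2 * d) = n ^ d :=
    Nat.eq_of_mul_eq_mul_left (Nat.mul_pos (pow_pos hn0 _) (pow_pos hg _)) h1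
  rw [pow_mul, pow_two] at h2
  exact not_sq hn g (Nat.pow_left_injective hd h2)

theorem exps_eq {n g a b F E : ℕ} (hn : n % 4 = 2) (hg : 0 < g)
    (h : n ^ a * g ^ F = n ^ b * g ^ E) (h2 : 2 * a + F = 2 * b + E) : F = E := by
  rcases Nat.lt_trichotomy a b with hab | hab | hab
  · obtain ⟨d, rfl⟩ : ∃ d, b = a + d := ⟨b - a, by omega⟩
    have hF : F = E + 2 * d := by omega
    subst hF
    exact (exps_aux hn hg (by omega) h).elim
  · omega
  · obtain ⟨d, rfl⟩ : ∃ d, a = b + d := ⟨a - b, by omega⟩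
    have hE : E = F + 2 * d := by omega
    subst hE
    exact (exps_aux hn hg (by omega) h.symm).elim

variable {m n : ℕ} {π : Fin m → Fin m} {p : Fin m → Equiv.Perm (Fin n)}

/-! ### lines through a fixed cell -/

theorem move_update {z : Fin m → Fin n} (hz : move π p z = z) (hπ : ∀ i, π (π i) = i)
    {i : Fin m} (hi : π i = i) (t : Fin n) :
    move π p (update z i t) = update z i (p i t) := by
  funext j
  by_cases hj : j = i
  · subst hj
    rw [update_self]
    simp only [move]
    rw [hi, update_self]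
  · have hπj : π j ≠ i := fun h' => hj (by rw [← hπ j, h', hi])
    rw [update_of_ne hj]
    simp only [move]
    rw [update_of_ne hπj]
    exact congrFun hz j

theorem line_fixed_iff {k : ℕ} {C : Fin k → (Fin m → Fin n) → Fin n} {ρ : Fin k → Fin k}
    {q : Fin k → Equiv.Perm (Fin n)} (hC : ∀ o, IsPermutationCube m n (C o))
    (hπ : ∀ i, π (π i) = i) (h : ∀ o x, C (ρ o) (move π p x) = q o (C o x))
    {z : Fin m → Fin n} (hz : move π p z = z) {o : Fin k} (ho : ρ o = o) {i : Fin m}
    (hi : π i = i) (t : Fin n) :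
    C o (update z i t) ∈ fixes (q o) ↔ t ∈ fixes (p i) := by
  rw [mem_fixes, mem_fixes]
  have h1 := h o (update z i t)
  rw [ho, move_update hz hπ hi] at h1
  rw [← h1]
  constructor
  · intro h2
    exact (hC o i z).1 h2
  · intro h2
    rw [h2]

theorem card_fixes_line {k : ℕ} {C : Fin k → (Fin m → Fin n) → Fin n} {ρ : Fin k → Fin k}
    {q : Fin k → Equiv.Perm (Fin n)} (hC : ∀ o, IsPermutationCube m n (C o))
    (hπ : ∀ i, π (π i) = i) (h : ∀ o x, C (ρ o) (move π p x) = q o (C o x))
    {z : Fin m → Fin n} (hz : move π p z = z) {o : Fin k} (ho : ρ o = o) {i : Fin m}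
    (hi : π i = i) : (fixes (p i)).card = (fixes (q o)).card := by
  refine Finset.card_bij (fun t _ => C o (update z i t)) ?_ ?_ ?_
  · intro t ht
    exact (line_fixed_iff hC hπ h hz ho hi t).2 ht
  · intro t _ t' _ h'
    exact (hC o i z).1 h'
  · intro s hs
    obtain ⟨t, ht⟩ := (hC o i z).2 s
    have ht' : C o (update z i t) = s := ht
    exact ⟨t, (line_fixed_iff hC hπ h hz ho hi t).1 (by rw [ht']; exact hs), ht'⟩

/-- two fixed coordinates: all symbols are fixed or less than half of them -/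
theorem two_fixed {k : ℕ} {C : Fin k → (Fin m → Fin n) → Fin n} {ρ : Fin k → Fin k}
    {q : Fin k → Equiv.Perm (Fin n)} (hn : n % 4 = 2) (hC : ∀ o, IsPermutationCube m n (C o))
    (hπ : ∀ i, π (π i) = i) (h : ∀ o x, C (ρ o) (move π p x) = q o (C o x))
    {z : Fin m → Fin n} (hz : move π p z = z) {o : Fin k} (ho : ρ o = o) {i j : Fin m}
    (hi : π i = i) (hj : π j = j) (hij : j ≠ i) (he : Even (fixes (q o)).card) :
    (fixes (q o)).card = n ∨ 2 * (fixes (q o)).card < n := by
  classical
  by_cases ha : ∃ a, a ∉ fixes (p i)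
  · right
    obtain ⟨a, ha⟩ := ha
    have himg : (fixes (p j)).image (fun t => C o (update (update z i a) j t)) ⊆
        (fixes (q o))ᶜ := by
      intro s hs
      obtain ⟨t, ht, rfl⟩ := Finset.mem_image.1 hs
      rw [Finset.mem_compl]
      have hz' : move π p (update z j t) = update z j t := by
        rw [move_update hz hπ hj, mem_fixes.1 ht]
      rw [update_comm hij.symm, line_fixed_iff hC hπ h hz' ho hi]
      exact ha
    have h1 := Finset.card_le_card himg
    rw [Finset.card_image_of_injective _ (hC o j _).1, card_fixes_line hC hπ h hz ho hj,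
      Finset.card_compl, Fintype.card_fin] at h1
    have h2 : (fixes (q o)).card ≤ n := by
      have := Finset.card_le_univ (fixes (q o))
      rwa [Fintype.card_fin] at this
    obtain ⟨r, hr⟩ := he
    omega
  · left
    push Not at ha
    have h2 : fixes (p i) = univ := Finset.eq_univ_iff_forall.2 ha
    rw [← card_fixes_line hC hπ h hz ho hi, h2, Finset.card_univ, Fintype.card_fin]

/-! ### fixed cells and fixed words -/

variable {C : Fin (m + 1) → (Fin m → Fin n) → Fin n} {ρ : Fin (m + 1) → Fin (m + 1)}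
  {q : Fin (m + 1) → Equiv.Perm (Fin n)}

theorem words_bij (hC : IsVariationalSet m n (m + 1) C) (o₀ : Fin (m + 1)) :
    Bijective (fun (x : Fin m → Fin n) (o : {o : Fin (m + 1) // o ≠ o₀}) => C o.1 x) := by
  have hb := hC.2 o₀.succAbove Fin.succAbove_right_injective
  constructor
  · intro x y hxy
    apply hb.1
    funext i
    exact congrFun hxy ⟨o₀.succAbove i, Fin.succAbove_ne o₀ i⟩
  · intro w
    obtain ⟨x, hx⟩ := hb.2 (fun i => w ⟨o₀.succAbove i, Fin.succAbove_ne o₀ i⟩)
    refine ⟨x, ?_⟩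
    funext o
    obtain ⟨i, hi⟩ := Fin.exists_succAbove_eq o.2
    have h1 : C (o₀.succAbove i) x = w ⟨o₀.succAbove i, Fin.succAbove_ne o₀ i⟩ := congrFun hx i
    have h2 : (⟨o₀.succAbove i, Fin.succAbove_ne o₀ i⟩ : {o : Fin (m + 1) // o ≠ o₀}) = o :=
      Subtype.ext hi
    rw [h2, hi] at h1
    exact h1

theorem card_fixed_cells (hC : IsVariationalSet m n (m + 1) C)
    (hπ : ∀ i, π (π i) = i) (hp : ∀ i s, p (π i) (p i s) = s)
    (hρ : ∀ o, ρ (ρ o) = o) (hq : ∀ o s, q (ρ o) (q o s) = s)
    (h : ∀ o x, C (ρ o) (move π p x) = q o (C o x)) {o₀ : Fin (m + 1)} (ho₀ : ρ o₀ = o₀) :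
    Nat.card {x : Fin m → Fin n // move π p x = x} * (fixes (q o₀)).card =
      n ^ (univ.filter fun o => o < ρ o).card *
        ∏ o ∈ univ.filter (fun o => ρ o = o), (fixes (q o)).card := by
  classical
  have hst : ∀ o : {o : Fin (m + 1) // o ≠ o₀}, ρ o.1 ≠ o₀ := by
    intro o h'
    exact o.2 (by rw [← hρ o.1, h', ho₀])
  set ρ' : {o : Fin (m + 1) // o ≠ o₀} → {o : Fin (m + 1) // o ≠ o₀} :=
    fun o => ⟨ρ o.1, hst o⟩ with hρ'
  set q' : {o : Fin (m + 1) // o ≠ o₀} → Equiv.Perm (Fin n) := fun o => q o.1 with hq'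
  have hb := words_bij hC o₀
  have hsym := symbols_move (C := C) hρ h
  have hsym' : ∀ x, (fun o : {o : Fin (m + 1) // o ≠ o₀} => C o.1 (move π p x)) =
      move ρ' q' (fun o => C o.1 x) := by
    intro x
    funext o
    exact congrFun (hsym x) o.1
  have h1 : Nat.card {x : Fin m → Fin n // move π p x = x} =
      Nat.card {w : {o : Fin (m + 1) // o ≠ o₀} → Fin n // move ρ' q' w = w} := by
    refine Nat.card_eq_of_bijective (fun x => ⟨fun o => C o.1 x.1, by
      rw [← hsym' x.1, x.2]⟩) ⟨?_, ?_⟩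
    · intro x y hxy
      apply Subtype.ext
      apply hb.1
      exact congrArg Subtype.val hxy
    · rintro ⟨w, hw⟩
      obtain ⟨x, hx⟩ := hb.2 w
      have hx' : (fun o : {o : Fin (m + 1) // o ≠ o₀} => C o.1 x) = w := hx
      refine ⟨⟨x, ?_⟩, Subtype.ext hx'⟩
      apply hb.1
      show (fun o : {o : Fin (m + 1) // o ≠ o₀} => C o.1 (move π p x)) =
        fun o : {o : Fin (m + 1) // o ≠ o₀} => C o.1 x
      rw [hsym' x, hx', hw]
  have h2 := card_fix (π := ρ') (p := q') (fun o => Subtype.ext (hρ o.1))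
    (fun o s => hq o.1 s)
  have h3 : (univ.filter fun o : {o : Fin (m + 1) // o ≠ o₀} => o < ρ' o).card =
      (univ.filter fun o => o < ρ o).card := by
    refine Finset.card_bij (fun o _ => o.1) ?_ ?_ ?_
    · intro o ho
      simp only [Finset.mem_filter, Finset.mem_univ, true_and] at ho ⊢
      exact ho
    · intro o _ o' _ h'
      exact Subtype.ext h'
    · intro o ho
      simp only [Finset.mem_filter, Finset.mem_univ, true_and] at ho
      have hne : o ≠ o₀ := by
        rintro rfl
        rw [ho₀] at ho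
        exact lt_irrefl _ ho
      refine ⟨⟨o, hne⟩, ?_, rfl⟩
      simp only [Finset.mem_filter, Finset.mem_univ, true_and]
      exact ho
  have h4 : ∏ o ∈ univ.filter (fun o : {o : Fin (m + 1) // o ≠ o₀} => ρ' o = o),
      (fixes (q' o)).card = ∏ o ∈ (univ.filter (fun o => ρ o = o)).erase o₀,
        (fixes (q o)).card := by
    refine Finset.prod_bij (fun o _ => o.1) ?_ ?_ ?_ ?_
    · intro o ho
      simp only [Finset.mem_filter, Finset.mem_univ, true_and, Finset.mem_erase] at ho ⊢
      exact ⟨o.2, congrArg Subtype.val ho⟩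
    · intro o _ o' _ h'
      exact Subtype.ext h'
    · intro o ho
      simp only [Finset.mem_filter, Finset.mem_univ, true_and, Finset.mem_erase] at ho
      refine ⟨⟨o, ho.1⟩, ?_, rfl⟩
      simp only [Finset.mem_filter, Finset.mem_univ, true_and]
      exact Subtype.ext ho.2
    · intro o _
      rfl
  have h5 : Nat.card {w : {o : Fin (m + 1) // o ≠ o₀} → Fin n // move ρ' q' w = w} =
      n ^ (univ.filter fun o => o < ρ o).card *
        ∏ o ∈ (univ.filter (fun o => ρ o = o)).erase o₀, (fixes (q o)).card := by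
    rw [← h3, ← h4, Nat.card_eq_fintype_card]
    convert h2
  have h6 := Finset.prod_erase_mul (univ.filter (fun o => ρ o = o))
    (fun o => (fixes (q o)).card) (a := o₀) (by simp [ho₀])
  rw [h1, h5, mul_assoc, h6]

/-- **The dichotomy.** -/
theorem dichotomy (hn : n % 4 = 2) (hC : IsVariationalSet m n (m + 1) C)
    (hπ : ∀ i, π (π i) = i) (hp : ∀ i s, p (π i) (p i s) = s)
    (hρ : ∀ o, ρ (ρ o) = o) (hq : ∀ o s, q (ρ o) (q o s) = s)
    (h : ∀ o x, C (ρ o) (move π p x) = q o (C o x)) (hfix : ∃ o, ρ o = o) :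
    ((∃ x, move π p x = x) ∧
      (univ.filter fun o => ρ o = o).card = (univ.filter fun i => π i = i).card + 1 ∧
      ∃ f, Even f ∧ 2 ≤ f ∧ (∀ i, π i = i → (fixes (p i)).card = f) ∧
        (∀ o, ρ o = o → (fixes (q o)).card = f) ∧
        (2 ≤ (univ.filter fun i => π i = i).card → f = n ∨ 2 * f < n)) ∨
    (Odd m ∧ Odd (fr π p).card ∧ ∀ o, ρ o = o → ∀ s, q o s ≠ s) := by
  classical
  have h' : ∀ o, ρ o = o → ∀ x, C o (move π p x) = q o (C o x) := by
    intro o ho x
    have := h o x
    rwa [ho] at this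
  have hq2 : ∀ o, ρ o = o → ∀ s, q o (q o s) = s := by
    intro o ho s
    have := hq o s
    rwa [ho] at this
  rcases Nat.even_or_odd (fr π p).card with hev | hod
  · left
    obtain ⟨o₀, ho₀⟩ := hfix
    have hpos : ∀ o, ρ o = o → 0 < (fixes (q o)).card := by
      intro o ho
      obtain ⟨s, hs⟩ := symbol_fixed (hC.1 o) hn hπ hp (hq2 o ho) (h' o ho) (Nat.even_iff.1 hev)
      exact Finset.card_pos.2 ⟨s, mem_fixes.2 hs⟩
    set N := Nat.card {x : Fin m → Fin n // move π p x = x} with hN
    set g := (fixes (q o₀)).card with hg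
    have hg0 : 0 < g := hpos o₀ ho₀
    have hcount : ∀ o, ρ o = o → N * (fixes (q o)).card = N * g := by
      intro o ho
      rw [hN, card_fixed_cells hC hπ hp hρ hq h ho, hg, card_fixed_cells hC hπ hp hρ hq h ho₀]
    have hP : 0 < n ^ (univ.filter fun o => o < ρ o).card *
        ∏ o ∈ univ.filter (fun o => ρ o = o), (fixes (q o)).card := by
      refine Nat.mul_pos (pow_pos (by omega) _) (Finset.prod_pos fun o ho => ?_)
      exact hpos o (by simpa using ho)
    have hNg := card_fixed_cells hC hπ hp hρ hq h ho₀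
    have hN0 : 0 < N := by
      rw [← hNg] at hP
      exact Nat.pos_of_mul_pos_right hP
    have hgo : ∀ o, ρ o = o → (fixes (q o)).card = g := fun o ho =>
      Nat.eq_of_mul_eq_mul_left hN0 (hcount o ho)
    obtain ⟨⟨z, hz⟩⟩ : Nonempty {x : Fin m → Fin n // move π p x = x} := by
      by_contra hcon
      rw [not_nonempty_iff] at hcon
      have : N = 0 := by rw [hN]; exact Nat.card_of_isEmpty
      omega
    have hfi : ∀ i, π i = i → (fixes (p i)).card = g := fun i hi =>
      card_fixes_line hC.1 hπ h hz ho₀ hi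
    have hN1 : N = n ^ (univ.filter fun i => i < π i).card *
        g ^ (univ.filter fun i => π i = i).card := by
      rw [hN, Nat.card_eq_fintype_card, card_fix hπ hp]
      congr 1
      rw [Finset.prod_congr rfl (fun i hi => hfi i (by simpa using hi)), Finset.prod_const]
    have hP1 : ∏ o ∈ univ.filter (fun o => ρ o = o), (fixes (q o)).card =
        g ^ (univ.filter fun o => ρ o = o).card := by
      rw [Finset.prod_congr rfl (fun o ho => hgo o (by simpa using ho)), Finset.prod_const]
    rw [← hN, hN1, hP1, mul_assoc, ← pow_succ] at hNg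
    have hc1 := card_pairs hπ
    have hc2 := card_pairs hρ
    rw [Fintype.card_fin] at hc1 hc2
    have hE := exps_eq hn hg0 hNg (by omega)
    have hge : Even g := even_fixes (by omega) (hq2 o₀ ho₀)
    refine ⟨⟨z, hz⟩, hE.symm, g, hge, ?_, hfi, hgo, fun h2 => ?_⟩
    · obtain ⟨r, hr⟩ := hge
      omega
    · obtain ⟨i, hi, j, hj, hij⟩ := Finset.one_lt_card.1
        (show 1 < (univ.filter fun i => π i = i).card by omega)
      exact two_fixed hn hC.1 hπ h hz ho₀ (by simpa using hi) (by simpa using hj) hij.symm hge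
  · right
    have hfree : ∀ o, ρ o = o → ∀ s, q o s ≠ s := fun o ho s =>
      symbol_free (hC.1 o) hn hπ hp (h' o ho) (Nat.odd_iff.1 hod) s
    refine ⟨?_, hod, hfree⟩
    have h1 := even_fixed_cubes hn hC hπ hp hρ hq h hfree
    have h2 := card_pairs hρ
    rw [Fintype.card_fin] at h2
    rw [Nat.odd_iff]
    omega

/-- for even `m` some cube is fixed -/
theorem exists_fixed_cube (hm : Even m) (hρ : ∀ o, ρ (ρ o) = o) : ∃ o, ρ o = o := by
  have h2 := card_pairs hρ
  rw [Fintype.card_fin] at h2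
  obtain ⟨r, hr⟩ := hm
  obtain ⟨o, ho⟩ : (univ.filter fun o => ρ o = o).Nonempty := by
    rw [← Finset.card_pos]
    omega
  exact ⟨o, by simpa using ho⟩

end Pool.Agent.K7.H21.Inv
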