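import Pool.Agent.K7.H21.Inv.Main

set_option autoImplicit false

/-!
# Involutions of variational sets of `m + 1` cubes: order six
-/

namespace Pool.Agent.K7.H21.Inv

open Function Finset Pool.Agent.H430R2.PermCubes Pool.Agent.K7.H21.Aut6

variable {m n : ℕ} {C : Fin (m + 1) → (Fin m → Fin n) → Fin n} {π : Fin m → Fin m}
  {p : Fin m → Equiv.Perm (Fin n)} {ρ : Fin (m + 1) → Fin (m + 1)}
  {q : Fin (m + 1) → Equiv.Perm (Fin n)}

theorem exists_third (hm : 2 ≤ m) (a b : Fin (m + 1)) : ∃ c, c ≠ a ∧ c ≠ b := by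
  have h1 : ({a, b} : Finset (Fin (m + 1))).card < Fintype.card (Fin (m + 1)) := by
    rw [Fintype.card_fin]
    exact lt_of_le_of_lt Finset.card_le_two (by omega)
  obtain ⟨c, hc⟩ := Finset.exists_mem_notMem_of_card_lt_card
    (s := {a, b}) (t := (univ : Finset (Fin (m + 1)))) (by rwa [Finset.card_univ])
  simp only [Finset.mem_univ, Finset.mem_insert, Finset.mem_singleton, not_or, true_and] at hc
  exact ⟨c, hc⟩

/-- the permutation of the cubes and their symbols has order two as well -/
theorem cubes_invol (hm : 2 ≤ m) (hn : 2 ≤ n) (hC : IsVariationalSet m n (m + 1) C)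
    (hπ : ∀ i, π (π i) = i) (hp : ∀ i s, p (π i) (p i s) = s)
    (h : ∀ o x, C (ρ o) (move π p x) = q o (C o x)) :
    (∀ o, ρ (ρ o) = o) ∧ ∀ o s, q (ρ o) (q o s) = s := by
  have h1 : ∀ o x, C (ρ (ρ o)) x = q (ρ o) (q o (C o x)) := by
    intro o x
    rw [← h o x, ← h (ρ o) (move π p x), move_move hπ hp]
  have h2 : ∀ o, ρ (ρ o) = o := by
    intro o
    by_contra hne
    obtain ⟨c, hc1, hc2⟩ := exists_third hm o (ρ (ρ o))
    obtain ⟨t, ht⟩ : ∃ t : Fin n, t ≠ q (ρ o) (q o ⟨0, by omega⟩) := by
      haveI : Nontrivial (Fin n) := Fin.nontrivial_iff_two_le.2 hn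
      exact exists_ne _
    obtain ⟨x, hx⟩ := (words_bij hC c).2 (fun b => if b.1 = o then ⟨0, by omega⟩ else t)
    have e1 : C o x = ⟨0, by omega⟩ := by
      have := congrFun hx ⟨o, hc1.symm⟩
      simpa using this
    have e2 : C (ρ (ρ o)) x = t := by
      have := congrFun hx ⟨ρ (ρ o), hc2.symm⟩
      simpa [hne] using this
    have e3 := h1 o x
    rw [e1, e2] at e3
    exact ht e3
  refine ⟨h2, fun o s => ?_⟩
  obtain ⟨x, rfl⟩ := cube_surj (by omega) (hC.1 o) s
  rw [← h1, h2]

/-- order six, even dimension: a nontrivial involution swaps some coordinates -/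
theorem six_swaps {C : Fin (m + 1) → (Fin m → Fin 6) → Fin 6} {p : Fin m → Equiv.Perm (Fin 6)}
    {q : Fin (m + 1) → Equiv.Perm (Fin 6)} (hm : 2 ≤ m) (hme : Even m)
    (hC : IsVariationalSet m 6 (m + 1) C)
    (hπ : ∀ i, π (π i) = i) (hp : ∀ i s, p (π i) (p i s) = s)
    (h : ∀ o x, C (ρ o) (move π p x) = q o (C o x)) (hne : ¬ ∀ x, move π p x = x) :
    ∃ i, π i ≠ i := by
  by_contra hcon
  push Not at hcon
  obtain ⟨hρ, hq⟩ := cubes_invol hm (by norm_num) hC hπ hp h
  rcases dichotomy (by norm_num) hC hπ hp hρ hq h (exists_fixed_cube hme hρ) with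
    ⟨-, hcard, -⟩ | ⟨hodd, -⟩
  · have e1 : (univ.filter fun i => π i = i) = univ := Finset.filter_true_of_mem fun i _ => hcon i
    rw [e1, Finset.card_univ, Fintype.card_fin] at hcard
    have e2 : (univ.filter fun o => ρ o = o) = univ := by
      apply Finset.eq_univ_of_card
      rw [hcard, Fintype.card_fin]
    have e3 : ∀ o, ρ o = o := fun o => by
      have := Finset.mem_univ o
      rw [← e2] at this
      simpa using this
    have hmv : ∀ x : Fin m → Fin 6, move π p x = fun i => p i (x i) := by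
      intro x
      funext i
      simp only [move]
      rw [hcon i]
    have hA : IsAut C p q := by
      intro o x
      have := h o x
      rw [e3 o, hmv] at this
      exact this
    have hp2 : p ^ 2 = 1 := by
      funext i
      ext s
      have := hp i s
      rw [hcon i] at this
      rw [Pi.pow_apply, pow_two, Equiv.Perm.mul_apply, this]
      rfl
    have hp1 : p ≠ 1 := by
      intro hp1
      apply hne
      intro x
      rw [hmv, hp1]
      rfl
    have := (six_involution hm (by omega) hC hA hp2 hp1).1 (by omega)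
    exact (Nat.not_odd_iff_even.2 hme) this
  · exact (Nat.not_odd_iff_even.2 hme) hodd

end Pool.Agent.K7.H21.Inv
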