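import Pool.Agent.K7.H21.Aut6.Cube
import Pool.Agent.TH7.Cyc.Parity

set_option autoImplicit false

/-!
# Involutions that permute the coordinates: the parity lemma
-/

namespace Pool.Agent.K7.H21.Inv

open Function Finset Pool.Agent.H430R2.PermCubes Pool.Agent.K7.H21.Aut6

/-- the image of the cell `x`: the symbol `x i` of the coordinate `i` becomes the symbol `p i (x i)`
of the coordinate `π i` (for an involution `π`) -/
def move {I : Type} {n : ℕ} (π : I → I) (p : I → Equiv.Perm (Fin n)) (x : I → Fin n) : I → Fin n :=
  fun i => p (π i) (x (π i))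

section
variable {I : Type} {n : ℕ} {π : I → I} {p : I → Equiv.Perm (Fin n)}

theorem move_move (hπ : ∀ i, π (π i) = i) (hp : ∀ i s, p (π i) (p i s) = s) (x : I → Fin n) :
    move π p (move π p x) = x := by
  funext i
  simp only [move]
  rw [hπ]
  exact hp i (x i)

/-- the cells as a permutation -/
def movePerm (hπ : ∀ i, π (π i) = i) (hp : ∀ i s, p (π i) (p i s) = s) :
    Equiv.Perm (I → Fin n) where
  toFun := move π p
  invFun := move π p
  left_inv := move_move hπ hp
  right_inv := move_move hπ hp

end

/-- half of the symbols for every index, compatible with the involution -/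
def halves {I : Type} [LinearOrder I] {n : ℕ} (π : I → I) (p : I → Equiv.Perm (Fin n))
    (B : Finset (Fin n)) (i : I) : Finset (Fin n) :=
  if π i = i then half (p i) else if i < π i then B else B.map (p (π i)).toEmbedding

section
variable {I : Type} [LinearOrder I] {n k : ℕ} {π : I → I} {p : I → Equiv.Perm (Fin n)}
  {B : Finset (Fin n)}

theorem card_halves (hn : n = 2 * k) (hB : B.card = k) (hp : ∀ i s, p (π i) (p i s) = s)
    (hfree : ∀ i, π i = i → ∀ s, p i s ≠ s) (i : I) : (halves π p B i).card = k := by
  unfold halves
  split_ifs with h1 h2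
  · refine card_half hn (fun s => ?_) (hfree i h1)
    have := hp i s
    rwa [h1] at this
  · exact hB
  · rw [Finset.card_map, hB]

theorem halves_flip (hp : ∀ i s, p (π i) (p i s) = s)
    (hfree : ∀ i, π i = i → ∀ s, p i s ≠ s) {i : I} (hi : π i = i) (s : Fin n) :
    p i s ∈ halves π p B i ↔ s ∉ halves π p B i := by
  unfold halves
  rw [if_pos hi]
  refine mem_half (fun s => ?_) (hfree i hi) s
  have := hp i s
  rwa [hi] at this

theorem halves_keep (hπ : ∀ i, π (π i) = i) (hp : ∀ i s, p (π i) (p i s) = s) {i : I}
    (hi : π i ≠ i) (s : Fin n) :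
    p i s ∈ halves π p B (π i) ↔ s ∈ halves π p B i := by
  have hi' : π (π i) ≠ π i := by rw [hπ]; exact hi.symm
  unfold halves
  rw [if_neg hi, if_neg hi', hπ]
  rcases lt_or_gt_of_ne hi with h | h
  · rw [if_pos h, if_neg (not_lt.2 h.le)]
    constructor
    · intro hs
      rw [Finset.mem_map]
      exact ⟨p i s, hs, hp i s⟩
    · intro hs
      rw [Finset.mem_map] at hs
      obtain ⟨b, hb, hbs⟩ := hs
      have h1 : p (π i) b = s := hbs
      have h2 := hp (π i) b
      rw [hπ, h1] at h2
      rw [h2]
      exact hb
  · rw [if_neg (not_lt.2 h.le), if_pos h]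
    rw [Finset.mem_map]
    constructor
    · rintro ⟨b, hb, hbs⟩
      have h1 : p i b = p i s := hbs
      rw [← (p i).injective h1]
      exact hb
    · intro hs
      exact ⟨s, hs, rfl⟩

end

theorem exists_base {n : ℕ} (hn : n % 2 = 0) : ∃ B : Finset (Fin n), B.card = n / 2 := by
  obtain ⟨B, -, hB⟩ := Finset.exists_subset_card_eq
    (show n / 2 ≤ (Finset.univ : Finset (Fin n)).card by simp; omega)
  exact ⟨B, hB⟩

/-- **The parity lemma.** -/
theorem no_sym {I : Type} [Fintype I] [LinearOrder I] {n : ℕ} {f : (I → Fin n) → Fin n}
    (hf : ∀ (i : I) (x : I → Fin n), Bijective fun t => f (update x i t)) (hn : n % 4 = 2)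
    (π : I → I) (hπ : ∀ i, π (π i) = i) (p : I → Equiv.Perm (Fin n))
    (hp : ∀ i s, p (π i) (p i s) = s) (hfree : ∀ i, π i = i → ∀ s, p i s ≠ s)
    (q : Equiv.Perm (Fin n)) (hq2 : ∀ s, q (q s) = s) (hq1 : ∀ s, q s ≠ s)
    (h : ∀ x, f (move π p x) = q (f x))
    (he : (univ.filter fun i => π i = i).card % 2 = 0) : False := by
  classical
  obtain ⟨k, hk⟩ : ∃ k, n = 2 * k := ⟨n / 2, by omega⟩
  have hk2 : k % 2 = 1 := by omega
  obtain ⟨B, hB⟩ := exists_base (n := n) (by omega)
  have hB' : B.card = k := by omega
  set R := halves π p B with hRdef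
  have hR : ∀ i, (R i).card = k := fun i => card_halves hk hB' hp hfree i
  have hH : (half q).card = k := card_half hk hq2 hq1
  set S : Finset I := univ.filter fun i => π i = i with hS
  have hmS : ∀ i, i ∈ S ↔ π i = i := fun i => by simp [hS]
  have h1 := (cnt_set hf hk hR hH false S).1 he
  have h2 := cnt_add (f := f) hk hR (half q) (fun _ => true)
  have h3 : cnt f R (half q) (fun _ => true) true =
      cnt f R (half q) (fun i => decide (i ∉ S)) false := by
    refine Finset.card_bij (fun x _ => move π p x) ?_ ?_ ?_
    · intro x hx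
      rw [Finset.mem_filter] at hx ⊢
      have hx1 : ∀ i, x i ∈ R i := fun i => by simpa using hx.2.1 i
      refine ⟨Finset.mem_univ _, fun i => ?_, ?_⟩
      · by_cases hi : π i = i
        · have h4 : ¬ move π p x i ∈ R i := by
            simp only [move]
            rw [hi, hRdef, halves_flip hp hfree hi]
            exact not_not.2 (hx1 i)
          simp [h4, hmS, hi]
        · have h4 : move π p x i ∈ R i := by
            simp only [move]
            have hi' : π (π i) ≠ π i := by rw [hπ]; exact fun h' => hi h'.symm
            have := (halves_keep (B := B) hπ hp hi' (x (π i))).2 (hx1 (π i))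
            rwa [hπ] at this
          simp [h4, hmS, hi]
      · have h4 : f x ∈ half q := by simpa using hx.2.2
        have h5 : ¬ q (f x) ∈ half q := by
          rw [mem_half hq2 hq1]; simpa using h4
        rw [h]
        simp [h5]
    · intro x _ y _ hxy
      have := congrArg (move π p) hxy
      rwa [move_move hπ hp, move_move hπ hp] at this
    · intro y hy
      rw [Finset.mem_filter] at hy
      refine ⟨move π p y, ?_, move_move hπ hp y⟩
      rw [Finset.mem_filter]
      refine ⟨Finset.mem_univ _, fun i => ?_, ?_⟩
      · by_cases hi : π i = i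
        · have h4 : ¬ y i ∈ R i := by
            have := hy.2.1 i
            have hiS : ¬ i ∉ S := by rw [not_not, hmS]; exact hi
            simpa [hiS] using this
          have h5 : move π p y i ∈ R i := by
            simp only [move]
            rw [hi, hRdef, halves_flip hp hfree hi]
            exact h4
          simp [h5]
        · have hi' : π (π i) ≠ π i := by rw [hπ]; exact fun h' => hi h'.symm
          have h4 : y (π i) ∈ R (π i) := by
            have := hy.2.1 (π i)
            have hiS : π i ∉ S := by rw [hmS]; exact hi'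
            simpa [hiS] using this
          have h5 : move π p y i ∈ R i := by
            simp only [move]
            have := (halves_keep (B := B) hπ hp hi' (y (π i))).2 h4
            rwa [hπ] at this
          simp [h5]
      · have h4 : ¬ f y ∈ half q := by simpa using hy.2.2
        have h5 : q (f y) ∈ half q := (mem_half hq2 hq1 _).2 h4
        rw [h]
        simp [h5]
  have h5 : k ^ Fintype.card I % 2 = 1 := by
    rw [Nat.pow_mod, hk2]; simp
  omega

end Pool.Agent.K7.H21.Inv
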